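import Pool.Agent.PT33.Gap
import Pool.Agent.PostTag.Lines

/-!
# [PT33-Fill] every context can be completed to a computation that reaches a given cycle (helper33)

`Rch z x`: the computation on `x` reaches the word `z`. `Fill z N X q`: for every phase `s'` there is an admissible word `w` with long runs
of zeros at both ends such that the computation on `X w` with phase `q` reaches `z`.
-/

set_option autoImplicit false

namespace Pool.Agent.PT33

open Pool.Agent.PostTag List

/-- the computation on `x` reaches the word `z` -/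
def Rch (z x : List Bool) : Prop := ∃ k : ℕ, step^[k] x = z

theorem Rch.of_step {z x : List Bool} (h : Rch z (step x)) : Rch z x := by
  obtain ⟨k, hk⟩ := h
  exact ⟨k + 1, by rw [Function.iterate_succ_apply]; exact hk⟩

theorem letter {z : List Bool} (p : ℕ) (x : Bool) (rest : List Bool) (hr : 4 ≤ rest.length)
    (h : Rch z ((rest ++ dec (out p x)).drop ((p + wt x) % 3))) : Rch z ((blk x ++ rest).drop (p % 3)) := by
  obtain ⟨c1, c2, c3, c4, r, rfl⟩ : ∃ c1 c2 c3 c4 r, rest = c1 :: c2 :: c3 :: c4 :: r := by
    rcases rest with _ | ⟨c1, _ | ⟨c2, _ | ⟨c3, _ | ⟨c4, r⟩⟩⟩⟩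
    · simp at hr
    · simp at hr
    · simp at hr
    · simp at hr
    · exact ⟨c1, c2, c3, c4, r, rfl⟩
  have hp : p % 3 = 0 ∨ p % 3 = 1 ∨ p % 3 = 2 := by omega
  rcases hp with hp | hp | hp <;> cases x
  · have e1 : (p + wt false) % 3 = 1 := by simp only [wt]; simp; omega
    rw [e1] at h
    rw [hp]
    apply Rch.of_step
    simpa [step, blk, out, hp] using h
  · have e1 : (p + wt true) % 3 = 2 := by simp only [wt]; simp; omega
    rw [e1] at h
    rw [hp]
    apply Rch.of_step
    apply Rch.of_step
    simpa [step, blk, out, hp] using h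
  · have e1 : (p + wt false) % 3 = 2 := by simp only [wt]; simp; omega
    rw [e1] at h
    rw [hp]
    apply Rch.of_step
    simpa [step, blk, out, hp] using h
  · have e1 : (p + wt true) % 3 = 0 := by simp only [wt]; simp; omega
    rw [e1] at h
    rw [hp]
    apply Rch.of_step
    simpa [step, blk, out, hp] using h
  · have e1 : (p + wt false) % 3 = 0 := by simp only [wt]; simp; omega
    rw [e1] at h
    rw [hp]
    simpa [step, blk, out, hp] using h
  · have e1 : (p + wt true) % 3 = 1 := by simp only [wt]; simp; omega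
    rw [e1] at h
    rw [hp]
    apply Rch.of_step
    simpa [step, blk, out, hp] using h

theorem part {z : List Bool} (U : List Bool) : ∀ (p : ℕ) (rest : List Bool), 4 ≤ rest.length →
    Rch z ((rest ++ dec (T p U)).drop ((p + chi U) % 3)) → Rch z ((dec U ++ rest).drop (p % 3)) := by
  induction U with
  | nil => intro p rest _ h; simpa using h
  | cons x U ih =>
    intro p rest hr h
    rw [dec_cons, List.append_assoc]
    apply letter p x (dec U ++ rest) (by rw [List.length_append]; omega)
    rw [List.append_assoc]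
    apply ih (p + wt x) (rest ++ dec (out p x)) (by rw [List.length_append]; omega)
    rw [T_cons, dec_append, ← List.append_assoc, chi_cons, ← add_assoc] at h
    exact h

/-- no condition on the rest if the word starts with a run of `a` -/
theorem partL {z : List Bool} {U : List Bool} (p : ℕ) (rest : List Bool) (hU : ∃ U', U = replicate 6 false ++ U' ∧ 2 ≤ U'.length)
    (h : Rch z ((rest ++ dec (T p U)).drop ((p + chi U) % 3))) : Rch z ((dec U ++ rest).drop (p % 3)) := by
  obtain ⟨U', rfl, h2⟩ := hU
  have hl : ∀ V : List Bool, V.length ≤ (dec V).length := by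
    intro V
    induction V with
    | nil => simp
    | cons x V ih =>
      rw [dec_cons, List.length_append, List.length_cons]
      have : 1 ≤ (blk x).length := by cases x <;> simp [blk]
      omega
  have hl2 : 4 ≤ (dec U').length := by
    rcases U' with _ | ⟨x, _ | ⟨y, V⟩⟩
    · simp at h2
    · simp at h2
    · rw [dec_cons, dec_cons, List.length_append, List.length_append]
      have e1 : 2 ≤ (blk x).length := by cases x <;> simp [blk]
      have e2 : 2 ≤ (blk y).length := by cases y <;> simp [blk]
      omega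
  rw [dec_append, List.append_assoc]
  apply part _ p _ (by rw [List.length_append]; omega)
  rw [List.append_assoc]
  have h4 : nm p 6 = 4 := by simp only [nm]; omega
  apply part _ _ _
  · rw [List.length_append, T_replicate, h4, dec_replicate_false, List.length_replicate]
    omega
  · rw [T_append, dec_append, ← List.append_assoc, chi_append, ← add_assoc] at h
    exact h

theorem raw {z : List Bool} (s : List Bool) : ∀ (p : ℕ) (rest : List Bool), 4 ≤ rest.length →
    Rch z ((rest ++ dec (R p s)).drop ((p + 2 * s.length) % 3)) → Rch z ((s ++ rest).drop (p % 3)) := by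
  induction s with
  | nil => intro p rest _ h; simpa [R] using h
  | cons x s ih =>
    intro p rest hr h
    have hp : p % 3 = 0 ∨ p % 3 = 1 ∨ p % 3 = 2 := by omega
    have hlen : (p + 2 * (x :: s).length) % 3 = (p + 2 + 2 * s.length) % 3 := by
      simp only [List.length_cons]; congr 1; ring
    rw [hlen] at h
    rcases hp with hp | hp | hp
    · have h' : Rch z (((rest ++ blk x) ++ dec (R (p + 2) s)).drop ((p + 2 + 2 * s.length) % 3)) := by
        simpa [R, hp] using h
      have h2 := ih (p + 2) (rest ++ blk x) (by rw [List.length_append]; omega) h'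
      have e1 : (p + 2) % 3 = 2 := by omega
      rw [e1] at h2
      rw [hp]
      apply Rch.of_step
      have hl2 : 2 ≤ (s ++ rest).length := by rw [List.length_append]; omega
      have e2 : step (List.drop 0 (x :: s ++ rest)) = List.drop 2 (s ++ (rest ++ blk x)) := by
        rw [← List.append_assoc, List.drop_append_of_le_length hl2]
        cases x <;> simp [step, blk]
      rw [e2]
      exact h2
    · have h' : Rch z ((rest ++ dec (R (p + 2) s)).drop ((p + 2 + 2 * s.length) % 3)) := by
        simpa [R, hp] using h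
      have h2 := ih (p + 2) rest hr h'
      have e1 : (p + 2) % 3 = 0 := by omega
      rw [e1] at h2
      rw [hp]
      simpa using h2
    · have h' : Rch z ((rest ++ dec (R (p + 2) s)).drop ((p + 2 + 2 * s.length) % 3)) := by
        simpa [R, hp] using h
      have h2 := ih (p + 2) rest hr h'
      have e1 : (p + 2) % 3 = 1 := by omega
      rw [e1] at h2
      rw [hp]
      simpa using h2

theorem Adm.six {N s e : ℕ} {w : List Bool} (hN : 8 ≤ N) (h : Adm N s e w) :
    ∃ U', w = replicate 6 false ++ U' ∧ 2 ≤ U'.length := by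
  obtain ⟨n, ks, m, rfl, hn, hm, _⟩ := h
  refine ⟨replicate (n - 6) false ++ (true :: (code ks ++ replicate m false)), ?_, ?_⟩
  · rw [rep_add]
    congr 2
    omega
  · rw [List.length_append, List.length_replicate]
    omega

theorem Adm.long {N s e : ℕ} {w : List Bool} (hN : 8 ≤ N) (h : Adm N s e w) : 4 ≤ (dec w).length := by
  obtain ⟨U', rfl, _⟩ := h.six hN
  rw [dec_append, List.length_append, dec_replicate_false, List.length_replicate]
  omega

theorem Adm.mono {N M s e : ℕ} {w : List Bool} (hNM : M ≤ N) (h : Adm N s e w) : Adm M s e w := by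
  obtain ⟨n, ks, m, h1, h2, h3, h4⟩ := h
  exact ⟨n, ks, m, h1, hNM.trans h2, hNM.trans h3, h4⟩

/-- the context `X` with phase `q` can be filled -/
def Fill (z : List Bool) (N : ℕ) (X : List Bool) (q : ℕ) : Prop :=
  ∀ s' : ℕ, ∃ w, Adm N s' q w ∧ Rch z ((dec (X ++ w)).drop (q % 3))

theorem Fill.mono {z : List Bool} {N M : ℕ} {X : List Bool} {q : ℕ} (hNM : M ≤ N) (h : Fill z N X q) : Fill z M X q := by
  intro s'
  obtain ⟨w, h1, h2⟩ := h s'
  exact ⟨w, h1.mono hNM, h2⟩

theorem Fill.back {z : List Bool} {N : ℕ} {X : List Bool} {q q' : ℕ} (hN : 48 ≤ N) (h : Fill z N (T q X) q') :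
    Fill z (N + 1) X q := by
  intro s'
  obtain ⟨w', h1, h2⟩ := h (q + chi X)
  obtain ⟨w, g1, g2, g3⟩ := PT33.back hN h1 s' q
  refine ⟨w, g3, ?_⟩
  rw [dec_append]
  apply part X q (dec w) (g3.long (by omega))
  apply partL _ _ (g3.six (by omega))
  rw [g1, g2, ← dec_append]
  exact h2

theorem fill_nil {z : List Bool} {N : ℕ} {q0 : ℕ} (hN : 48 ≤ N) (h : Fill z N [] q0) (q : ℕ) : Fill z (N + 1) [] q :=
  Fill.back (q' := q0) hN h

theorem fill_nil_all {z : List Bool} {q0 : ℕ} (h : Fill z 49 [] q0) (N q : ℕ) : Fill z N [] q := by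
  have h1 : ∀ d q, Fill z (50 + d) [] q := by
    intro d
    induction d with
    | zero => intro q; exact fill_nil (by norm_num) h q
    | succ d ih => intro q; exact fill_nil (by omega) (ih q0) q
  exact (h1 N q).mono (by omega)

theorem fill_rep {z : List Bool} (h : ∀ N q, Fill z N [] q) (k N q : ℕ) : Fill z N (replicate k false) q := by
  intro s'
  obtain ⟨s, hs⟩ : ∃ s : ℕ, ((k % 2 = 1) ↔ (s % 3 = 1 ↔ s' % 3 ≠ 1)) := by
    by_cases h1 : k % 2 = 1
    · by_cases h2 : s' % 3 = 1
      · exact ⟨0, by simp [h1, h2]⟩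
      · exact ⟨1, by simp [h1, h2]⟩
    · by_cases h2 : s' % 3 = 1
      · exact ⟨1, by simp [h1, h2]⟩
      · exact ⟨0, by simp [h1, h2]⟩
  obtain ⟨w, ⟨n, ks, m, rfl, h2, h3, h4, h5, h6⟩, h7⟩ := h (N + k) q s
  refine ⟨replicate (n - k) false ++ (true :: (code ks ++ replicate m false)), ⟨n - k, ks, m, rfl, by omega, by omega, h4, ?_, h6⟩, ?_⟩
  · by_cases h8 : s % 3 = 1 <;> by_cases h9 : s' % 3 = 1 <;> simp only [h8, h9, ne_eq, not_true_eq_false, not_false_eq_true,
      iff_true, iff_false, true_iff, false_iff] at hs h5 ⊢ <;> omega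
  · rw [rep_add]
    rw [List.nil_append] at h7
    have : k + (n - k) = n := by omega
    rw [this]
    exact h7

theorem fill_kill {z : List Bool} (h : ∀ N q, Fill z N [] q) (d : ℕ) : ∀ X u : List Bool, Reach d X u → true ∉ u →
    ∀ N, ∃ q, Fill z N X q := by
  induction d with
  | zero =>
    intro X u hr hu N
    have hX : X = u := hr
    rw [hX, eq_replicate_of_no_b hu]
    exact ⟨0, fill_rep h _ N 0⟩
  | succ d ih =>
    intro X u hr hu N
    obtain ⟨q, _, hr'⟩ := hr
    obtain ⟨q', hq⟩ := ih (T q X) u hr' hu (N + 48)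
    exact ⟨q, (Fill.back (by omega) hq).mono (by omega)⟩

/-- all contexts can be filled -/
theorem fill_all {z : List Bool} (h : ∀ N q, Fill z N [] q) (X : List Bool) (N q : ℕ) : Fill z N X q := by
  obtain ⟨d, u, h1, h2⟩ := exists_kill (T q X)
  obtain ⟨q', h3⟩ := fill_kill h d (T q X) u h1 h2 (N + 48)
  exact (Fill.back (by omega) h3).mono (by omega)

/-- the statement for arbitrary binary words -/
theorem context {z : List Bool} (h : ∀ N q, Fill z N [] q) (u v : List Bool) (L : ℕ) :
    ∃ w, L ≤ w.length ∧ Rch z (u ++ w ++ v) := by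
  obtain ⟨Ru, hRu⟩ : ∃ Ru, Ru = R 0 u := ⟨_, rfl⟩
  obtain ⟨Rv, hRv⟩ : ∃ Rv, Rv = R 0 v := ⟨_, rfl⟩
  obtain ⟨g, hg⟩ : ∃ g, g = 0 + 2 * v.length := ⟨_, rfl⟩
  obtain ⟨w2, h1, h2⟩ := fill_all h (Rv ++ T g Ru) (L + 48) 0 (g + chi Ru)
  obtain ⟨w1, g1, g2, g3⟩ := PT33.back (by omega) h1 (2 * u.length) 0
  obtain ⟨w0, k1, k2, k3⟩ := PT33.back (by omega) g3 0 0
  refine ⟨dec w0, ?_, ?_⟩
  · obtain ⟨n, ks, m, rfl, hn, _⟩ := k3
    rw [dec_append, List.length_append, dec_replicate_false, List.length_replicate]
    omega
  · have s1 : Rch z ((u ++ (dec w0 ++ v)).drop (0 % 3)) := by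
      apply raw u 0 (dec w0 ++ v)
      · rw [List.length_append]
        have := k3.long (by omega)
        omega
      · rw [List.append_assoc, ← hRu, Nat.zero_add]
        apply partL _ _ (k3.six (by omega))
        rw [k1, k2, List.append_assoc]
        apply raw v 0 (dec Ru ++ dec w1)
        · rw [List.length_append]
          have := g3.long (by omega)
          omega
        · rw [← hRv, ← hg, List.append_assoc]
          apply part Ru g (dec w1 ++ dec Rv)
          · rw [List.length_append]
            have := g3.long (by omega)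
            omega
          · rw [List.append_assoc]
            apply partL _ _ (g3.six (by omega))
            rw [g1, g2, ← dec_append, ← dec_append]
            exact h2
    rw [List.append_assoc]
    simpa using s1

/-- one seed is enough -/
theorem fill_of_seed {z : List Bool} (n m q : ℕ) (ks : List ℕ) (hn : 48 ≤ n) (hm : 48 ≤ m) (hg : Good 0 ks)
    (hq : m % 2 = 1 ↔ q % 3 = 1)
    (h : Rch z ((dec (replicate n false ++ (true :: (code ks ++ replicate m false)))).drop (q % 3))) :
    ∀ N q, Fill z N [] q := by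
  obtain ⟨s, hs⟩ : ∃ s : ℕ, (n % 2 = 1 ↔ s % 3 ≠ 1) := by
    by_cases h1 : n % 2 = 1
    · exact ⟨0, by simp [h1]⟩
    · exact ⟨1, by simp [h1]⟩
  have ha : Adm 48 s q (replicate n false ++ (true :: (code ks ++ replicate m false))) :=
    ⟨n, ks, m, rfl, hn, hm, hg, hs, hq⟩
  refine fill_nil_all (q0 := s) ?_
  intro s'
  obtain ⟨w, g1, g2, g3⟩ := PT33.back le_rfl ha s' s
  refine ⟨w, g3, ?_⟩
  rw [List.nil_append]
  have h1 : Rch z ((dec w ++ []).drop (s % 3)) := by
    apply partL _ _ (g3.six (by norm_num))
    rw [List.nil_append, g1, g2]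
    exact h
  simpa using h1

end Pool.Agent.PT33
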