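import Pool.Agent.PT33.Least

/-!
# [PT33-Data] the finite check for one family of periodic computations (helper33)

`ok d` is a finite check of the data `d`; `fill_data`: if it holds, then for every `t` all contexts can be filled such that the computation
reaches the periodic word `ZZ (GG d) t`, whose least period is `|GG d| + 12 t`.
-/

set_option autoImplicit false

namespace Pool.Agent.PT33

open Pool.Agent.PostTag List

/-- the data of one family -/
structure Data where
  /-- length of the first run -/
  n : ℕ
  /-- gaps before the repeated part -/
  k1 : List ℕ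
  /-- gaps of the repeated part -/
  us : List ℕ
  /-- gaps after the repeated part -/
  e1 : List ℕ
  /-- length of the last run -/
  m : ℕ
  /-- the phase -/
  q : ℕ
  /-- the number of passes -/
  J : ℕ
  /-- the phase after `J` passes -/
  q0 : ℕ
  /-- the first part after `J` passes, without the last three letters -/
  X1 : List Bool
  /-- the last part after `J` passes -/
  E0 : List Bool

/-- the family of words at the start -/
def top (d : Data) : Cf := (d.q, replicate d.n false ++ (true :: code d.k1), code d.us, code d.e1 ++ replicate d.m false)

/-- the family of words after `J` passes -/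
def bot (d : Data) : Cf := (d.q0, d.X1 ++ [true, true, true],
  [false, false, false, true, true, true, false, false, false, true, true, true], d.E0)

/-- the first part of the periodic words -/
def GG (d : Data) : List Bool := [true, true, true] ++ (d.E0 ++ T d.q0 d.X1)

/-- the finite check -/
def ok (d : Data) : Bool :=
  decide (48 ≤ d.n) && (decide (48 ≤ d.m) && (decide (d.m % 2 = 1 ↔ d.q % 3 = 1) && (decide (Good 0 d.k1) &&
    (decide (Good (fin 0 d.k1) d.us) && (decide (fin (fin 0 d.k1) d.us = fin 0 d.k1) && (decide (Good (fin 0 d.k1) d.e1) &&
      ((List.range d.J).all (fun j => chk (lev^[j] (top d))) && (decide (lev^[d.J] (top d) = bot d) &&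
        (decide ((d.q0 + chi d.X1) % 3 = 1) && okG (GG d))))))))))

theorem to_zz (d : Data) (t : ℕ) (h1 : (d.q0 + chi d.X1) % 3 = 1) :
    Rch (ZZ (GG d) t) ((dec (word t (bot d))).drop (d.q0 % 3)) := by
  have hw : word t (bot d) = (d.X1 ++ rp t BB) ++ ([true, true, true] ++ d.E0) := by
    have hs := rp_shift t [true, true, true] [false, false, false, true, true, true, false, false, false]
    have e1 : ([false, false, false, true, true, true, false, false, false] : List Bool) ++ [true, true, true] =
        [false, false, false, true, true, true, false, false, false, true, true, true] := rfl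
    have e2 : ([true, true, true] : List Bool) ++ [false, false, false, true, true, true, false, false, false] = BB := rfl
    rw [e1, e2] at hs
    simp only [word, bot]
    rw [List.append_assoc, List.append_assoc, ← List.append_assoc [true, true, true], hs, List.append_assoc]
  rw [hw, dec_append]
  apply part _ d.q0 _ (two_le _ (by simp))
  have hB : chi BB % 3 = 0 := by decide
  have hT : T 1 BB = BB := by decide
  have e3 : T d.q0 (d.X1 ++ rp t BB) = T d.q0 d.X1 ++ rp t BB := by
    rw [T_append, T_congr (rp t BB) (show (d.q0 + chi d.X1) % 3 = 1 % 3 by omega), T_rp hB, hT]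
  have e4 : (d.q0 + chi (d.X1 ++ rp t BB)) % 3 = 1 := by
    rw [chi_append]
    have := chi_rp hB t
    omega
  rw [e3, e4, ← dec_append]
  refine ⟨0, ?_⟩
  simp only [Function.iterate_zero, id]
  unfold ZZ XX GG
  congr 2
  simp only [List.append_assoc]

theorem fill_data {d : Data} (h : ok d = true) (t : ℕ) :
    (∀ N q, Fill (ZZ (GG d) t) N [] q) ∧ Function.minimalPeriod step (ZZ (GG d) t) = (GG d).length + 12 * t := by
  simp only [ok, Bool.and_eq_true, decide_eq_true_eq, List.all_eq_true, List.mem_range] at h
  obtain ⟨h1, h2, h3, h4, h5, h6, h7, h8, h9, h10, h11⟩ := h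
  refine ⟨?_, least_XX h11 t⟩
  obtain ⟨g1, g2⟩ := good_rp h5 h6 t
  refine fill_of_seed d.n d.m d.q (d.k1 ++ (rp t d.us ++ d.e1)) h1 h2 ?_ h3 ?_
  · rw [good_append, good_append, g2]
    exact ⟨h4, g1, h7⟩
  · have e1 : replicate d.n false ++ (true :: (code (d.k1 ++ (rp t d.us ++ d.e1)) ++ replicate d.m false)) =
        word t (top d) := by
      simp only [word, top, code_append, code_rp, List.append_assoc, List.cons_append]
    rw [e1]
    apply levels t d.J (top d) h8
    rw [h9]
    exact to_zz d t h10

end Pool.Agent.PT33
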