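import Pool.Agent.PT33.Fill

/-!
# [PT33-Fam] families of computations with a repeated middle part (helper33)

`rp t U` is the `t`-th power of the word `U`. If `U` has phase increment `0` mod 3, one pass over `F U^t E` gives `F' U'^t E'` with words
that do not depend on `t` (`lev`). `least`: lower bound for the least period of a word with a repeated middle part.
-/

set_option autoImplicit false

namespace Pool.Agent.PT33

open Pool.Agent.PostTag List

/-- the power of a word -/
def rp {α : Type} : ℕ → List α → List α
  | 0, _ => []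
  | t + 1, U => U ++ rp t U

theorem rp_add {α : Type} (s t : ℕ) (U : List α) : rp (s + t) U = rp s U ++ rp t U := by
  induction s with
  | zero => simp [rp]
  | succ s ih =>
    have : s + 1 + t = (s + t) + 1 := by omega
    rw [this]
    simp only [rp, ih, List.append_assoc]

theorem rp_shift {α : Type} (t : ℕ) (A B : List α) : A ++ rp t (B ++ A) = rp t (A ++ B) ++ A := by
  induction t with
  | zero => simp [rp]
  | succ t ih =>
    simp only [rp, List.append_assoc]
    rw [← ih]

theorem length_rp {α : Type} (t : ℕ) (U : List α) : (rp t U).length = t * U.length := by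
  induction t with
  | zero => simp [rp]
  | succ t ih =>
    simp only [rp, List.length_append, ih]
    ring

theorem dec_rp (t : ℕ) (U : List Bool) : dec (rp t U) = rp t (dec U) := by
  induction t with
  | zero => rfl
  | succ t ih => simp only [rp, dec_append, ih]

theorem chi_rp {U : List Bool} (hU : chi U % 3 = 0) (t : ℕ) : chi (rp t U) % 3 = 0 := by
  induction t with
  | zero => rfl
  | succ t ih =>
    simp only [rp, chi_append]
    omega

theorem T_rp {U : List Bool} (hU : chi U % 3 = 0) (t p : ℕ) : T p (rp t U) = rp t (T p U) := by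
  induction t with
  | zero => rfl
  | succ t ih =>
    simp only [rp, T_append]
    rw [T_congr (rp t U) (show (p + chi U) % 3 = p % 3 by omega), ih]

theorem code_rp (t : ℕ) (us : List ℕ) : code (rp t us) = rp t (code us) := by
  induction t with
  | zero => rfl
  | succ t ih => simp only [rp, code_append, ih]

/-! ### Passes over a family -/

/-- phase, first part, repeated part, last part -/
abbrev Cf := ℕ × List Bool × List Bool × List Bool

/-- the word of a family -/
def word (t : ℕ) (c : Cf) : List Bool := c.2.1 ++ (rp t c.2.2.1 ++ c.2.2.2)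

/-- one pass -/
def lev (c : Cf) : Cf := ((c.1 + chi c.2.1 + chi c.2.2.2) % 3, T c.1 c.2.1, T (c.1 + chi c.2.1) c.2.2.1, T (c.1 + chi c.2.1) c.2.2.2)

/-- the conditions for one pass -/
def chk (c : Cf) : Bool := decide (chi c.2.2.1 % 3 = 0) && (decide (2 ≤ (T c.1 c.2.1).length) && decide (2 ≤ c.2.2.2.length))

theorem two_le (V : List Bool) (h : 2 ≤ V.length) : 4 ≤ (dec V).length := by
  rcases V with _ | ⟨x, _ | ⟨y, V⟩⟩
  · simp at h
  · simp at h
  · rw [dec_cons, dec_cons, List.length_append, List.length_append]
    have e1 : 2 ≤ (blk x).length := by cases x <;> simp [blk]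
    have e2 : 2 ≤ (blk y).length := by cases y <;> simp [blk]
    omega

theorem level {z : List Bool} (t : ℕ) (c : Cf) (hc : chk c = true) (h : Rch z ((dec (word t (lev c))).drop ((lev c).1 % 3))) :
    Rch z ((dec (word t c)).drop (c.1 % 3)) := by
  obtain ⟨q, F, U, E⟩ := c
  simp only [chk, Bool.and_eq_true, decide_eq_true_eq] at hc
  obtain ⟨h1, h2, h3⟩ := hc
  simp only [word, lev] at h ⊢
  rw [dec_append]
  apply part F q
  · rw [dec_append, List.length_append]
    have := two_le E h3
    omega
  · apply part (rp t U ++ E) (q + chi F) (dec (T q F)) (two_le _ h2)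
    rw [T_append, T_rp h1, T_congr E (show (q + chi F + chi (rp t U)) % 3 = (q + chi F) % 3 by have := chi_rp h1 t; omega),
      ← dec_append]
    have e : (q + chi F + chi (rp t U ++ E)) % 3 = (q + chi F + chi E) % 3 % 3 := by
      rw [chi_append]
      have := chi_rp h1 t
      omega
    rw [e]
    exact h

theorem levels {z : List Bool} (t : ℕ) (J : ℕ) : ∀ c : Cf, (∀ j < J, chk (lev^[j] c) = true) →
    Rch z ((dec (word t (lev^[J] c))).drop ((lev^[J] c).1 % 3)) → Rch z ((dec (word t c)).drop (c.1 % 3)) := by
  induction J with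
  | zero => intro c _ h; exact h
  | succ J ih =>
    intro c hc h
    apply level t c (hc 0 (Nat.succ_pos J))
    apply ih (lev c)
    · intro j hj
      have := hc (j + 1) (by omega)
      rwa [Function.iterate_succ_apply] at this
    · rwa [Function.iterate_succ_apply] at h

/-! ### Good lists -/

theorem fin_append (l1 l2 : List ℕ) : ∀ c, fin c (l1 ++ l2) = fin (fin c l1) l2 := by
  induction l1 with
  | nil => intro c; rfl
  | cons k l1 ih => intro c; exact ih _

theorem good_append (l1 l2 : List ℕ) : ∀ c, Good c (l1 ++ l2) ↔ Good c l1 ∧ Good (fin c l1) l2 := by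
  induction l1 with
  | nil => intro c; simp [Good, fin]
  | cons k l1 ih =>
    intro c
    simp only [List.cons_append, Good, fin, ih, and_assoc]

theorem good_rp {us : List ℕ} {c : ℕ} (h1 : Good c us) (h2 : fin c us = c) (t : ℕ) : Good c (rp t us) ∧ fin c (rp t us) = c := by
  induction t with
  | zero => exact ⟨trivial, rfl⟩
  | succ t ih =>
    simp only [rp, good_append, fin_append, h2]
    exact ⟨⟨h1, ih.1⟩, ih.2⟩

instance decGood : ∀ (c : ℕ) (l : List ℕ), Decidable (Good c l)
  | _, [] => isTrue trivial
  | _, k :: ks => @instDecidableAnd _ _ _ (@instDecidableAnd _ _ _ (decGood (nxt k) ks))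

/-! ### Exact number of steps -/

theorem letterX (p : ℕ) (x : Bool) (rest : List Bool) (hr : 4 ≤ rest.length) :
    step^[(out p x).length] ((blk x ++ rest).drop (p % 3)) = (rest ++ dec (out p x)).drop ((p + wt x) % 3) := by
  obtain ⟨c1, c2, c3, c4, r, rfl⟩ : ∃ c1 c2 c3 c4 r, rest = c1 :: c2 :: c3 :: c4 :: r := by
    rcases rest with _ | ⟨c1, _ | ⟨c2, _ | ⟨c3, _ | ⟨c4, r⟩⟩⟩⟩
    · simp at hr
    · simp at hr
    · simp at hr
    · simp at hr
    · exact ⟨c1, c2, c3, c4, r, rfl⟩
  have hp : p % 3 = 0 ∨ p % 3 = 1 ∨ p % 3 = 2 := by omega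
  rcases hp with hp | hp | hp <;> cases x
  · have e1 : (p + wt false) % 3 = 1 := by simp only [wt]; simp; omega
    rw [e1, hp]
    simp [step, blk, out, hp]
  · have e1 : (p + wt true) % 3 = 2 := by simp only [wt]; simp; omega
    rw [e1, hp]
    simp [step, blk, out, hp]
  · have e1 : (p + wt false) % 3 = 2 := by simp only [wt]; simp; omega
    rw [e1, hp]
    simp [step, blk, out, hp]
  · have e1 : (p + wt true) % 3 = 0 := by simp only [wt]; simp; omega
    rw [e1, hp]
    simp [step, blk, out, hp]
  · have e1 : (p + wt false) % 3 = 0 := by simp only [wt]; simp; omega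
    rw [e1, hp]
    simp [blk, out, hp]
  · have e1 : (p + wt true) % 3 = 1 := by simp only [wt]; simp; omega
    rw [e1, hp]
    simp [step, blk, out, hp]

theorem partX (U : List Bool) : ∀ (p : ℕ) (rest : List Bool), 4 ≤ rest.length →
    step^[(T p U).length] ((dec U ++ rest).drop (p % 3)) = (rest ++ dec (T p U)).drop ((p + chi U) % 3) := by
  induction U with
  | nil => intro p rest _; simp
  | cons x U ih =>
    intro p rest hr
    rw [T_cons, List.length_append, add_comm, Function.iterate_add_apply, dec_cons, List.append_assoc,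
      letterX p x (dec U ++ rest) (by rw [List.length_append]; omega), List.append_assoc,
      ih (p + wt x) (rest ++ dec (out p x)) (by rw [List.length_append]; omega), dec_append, ← List.append_assoc, chi_cons,
      ← add_assoc]

/-- a word that is fixed by a pass from phase one is periodic -/
theorem periodic {A B : List Bool} (h1 : T 1 (A ++ B) = A ++ B) (h2 : chi (A ++ B) % 3 = 0) (hA : 2 ≤ (T 1 A).length)
    (hB : 2 ≤ B.length) : step^[(A ++ B).length] ((dec (A ++ B)).drop 1) = (dec (A ++ B)).drop 1 := by
  have e1 := partX A 1 (dec B) (two_le B hB)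
  have e2 := partX B (1 + chi A) (dec (T 1 A)) (two_le _ hA)
  rw [← dec_append] at e1
  have e3 : (A ++ B).length = (T (1 + chi A) B).length + (T 1 A).length := by
    rw [← h1, T_append, List.length_append, add_comm]
  have e4 : (1 + chi A + chi B) % 3 = 1 := by
    rw [chi_append] at h2
    omega
  rw [← dec_append, ← dec_append, ← T_append, h1, e4, dec_append B] at e2
  have e5 : (1 : ℕ) % 3 = 1 := rfl
  rw [e5] at e1
  rw [e3, Function.iterate_add_apply, e1, e2]

/-! ### The least period -/

theorem iter_drop (k : ℕ) : ∀ z : List Bool, 3 * k ≤ z.length → ∃ s, step^[k] z = z.drop (3 * k) ++ s := by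
  induction k with
  | zero => intro z _; exact ⟨[], by simp⟩
  | succ k ih =>
    intro z hz
    rw [Function.iterate_succ_apply]
    obtain ⟨o, ho⟩ : ∃ o, step z = z.drop 3 ++ o := ⟨_, rfl⟩
    have hl : 3 * k ≤ (z.drop 3).length := by rw [List.length_drop]; omega
    obtain ⟨s, hs⟩ := ih (step z) (by rw [ho, List.length_append]; omega)
    refine ⟨o ++ s, ?_⟩
    rw [hs, ho, List.drop_append_of_le_length hl, List.drop_drop, List.append_assoc]
    congr 2
    ring

theorem iter_fix {z : List Bool} {g : ℕ} (h : step^[g] z = z) (m : ℕ) : step^[m * g] z = z := by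
  induction m with
  | zero => simp
  | succ m ih => rw [Nat.succ_mul, Function.iterate_add_apply, h, ih]

end Pool.Agent.PT33
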