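import Pool.Agent.PostTag.Rate

/-!
# [PT33-Gap] preimages of gaps under one pass of Post's tag system (helper33)

Words are coded in the blocks `a = 00` (`false`), `b = 1101` (`true`); one pass over a block word is the transducer `T` of `PostTag.Basic`.
A code `a^(k_1) r_1 a^(k_2) r_2 ..` has runs `r_i = b` (`k_i` odd) or `bb` (`k_i` even). `pre`: every good code is the image of a good code.
`Adm`: words with long runs of `a` on both sides; `back`: all such words have preimages of the same kind, whatever the phases are.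
-/

set_option autoImplicit false

namespace Pool.Agent.PT33

open Pool.Agent.PostTag List

/-! ### Codes -/

/-- the run after a gap -/
def run1 (k : ℕ) : List Bool := if k % 2 = 1 then [true] else [true, true]

/-- gaps and runs -/
def code : List ℕ → List Bool
  | [] => []
  | k :: ks => replicate k false ++ (run1 k ++ code ks)

/-- the phase after the run -/
def nxt (k : ℕ) : ℕ := if k % 2 = 1 then 0 else 2

/-- the phase at the end -/
def fin : ℕ → List ℕ → ℕ
  | e, [] => e
  | _, k :: ks => fin (nxt k) ks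

/-- the conditions on the gaps -/
def Good : ℕ → List ℕ → Prop
  | _, [] => True
  | e, k :: ks => 5 ≤ k ∧ (e = 2 → k ≠ 6) ∧ Good (nxt k) ks

theorem code_append (js ks : List ℕ) : code (js ++ ks) = code js ++ code ks := by
  induction js with
  | nil => rfl
  | cons j js ih => simp [code, ih]

theorem nxt_cases (k : ℕ) : nxt k = 0 ∨ nxt k = 2 := by
  unfold nxt
  split_ifs <;> simp

theorem fin_cases' (ks : List ℕ) : ∀ e, e = 0 ∨ e = 2 → fin e ks = 0 ∨ fin e ks = 2 := by
  induction ks with
  | nil => intro e he; exact he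
  | cons k ks ih => intro e _; exact ih _ (nxt_cases k)

/-- one gap and one run of length one or two, from phase `p` -/
theorem T_gap (p j : ℕ) (r : List Bool) : T p (replicate j false ++ r) =
    replicate (nm p j) false ++ T (p + j) r := by
  rw [T_append, T_replicate, chi_replicate]

theorem T_run1 {p : ℕ} (hp : p % 3 = 1) : T p [true] = [true] := by
  simp [T, out, hp]

theorem T_run0 {p : ℕ} (hp : p % 3 = 0) : T p [true] = [true, true] := by
  simp [T, out, hp]

theorem T_run2 {p : ℕ} (hp : p % 3 = 2) : T p [true] = [false] := by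
  simp [T, out, hp]

theorem T_run22 {p : ℕ} (hp : p % 3 = 2) : T p [true, true] = [false, true] := by
  have h2 : (p + 2) % 3 = 1 := by omega
  simp [T, out, hp, wt, h2]

theorem rep_add (a b : ℕ) (l : List Bool) :
    replicate a false ++ (replicate b false ++ l) = replicate (a + b) false ++ l := by
  rw [← List.append_assoc, ← List.replicate_add]

theorem piece_o1 {p j k : ℕ} (hj : j % 2 = 1) (hk : k % 2 = 1) (hn : nm p j = k) (hp : (p + j) % 3 = 1) :
    T p (code [j]) = replicate k false ++ run1 k ∧ (p + chi (code [j])) % 3 = nxt k := by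
  have e1 : code [j] = replicate j false ++ [true] := by simp [code, run1, hj]
  have e2 : run1 k = [true] := by simp [run1, hk]
  have e3 : nxt k = 0 := by simp [nxt, hk]
  rw [e1, e2, e3, T_gap, T_run1 hp, hn, chi_append, chi_replicate]
  refine ⟨rfl, ?_⟩
  simp only [chi_cons, chi_nil, wt, if_true]
  omega

theorem piece_o2 {p j k : ℕ} (hj : j % 2 = 0) (hk : k % 2 = 1) (hn : nm p j + 1 = k) (hp : (p + j) % 3 = 2) :
    T p (code [j]) = replicate k false ++ run1 k ∧ (p + chi (code [j])) % 3 = nxt k := by
  have e1 : code [j] = replicate j false ++ [true, true] := by simp [code, run1, hj]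
  have e2 : run1 k = [true] := by simp [run1, hk]
  have e3 : nxt k = 0 := by simp [nxt, hk]
  rw [e1, e2, e3, T_gap, T_run22 hp, chi_append, chi_replicate, ← hn, List.replicate_succ']
  refine ⟨by simp, ?_⟩
  simp only [chi_cons, chi_nil, wt, if_true]
  omega

theorem piece_e {p j k : ℕ} (hj : j % 2 = 1) (hk : k % 2 = 0) (hn : nm p j = k) (hp : (p + j) % 3 = 0) :
    T p (code [j]) = replicate k false ++ run1 k ∧ (p + chi (code [j])) % 3 = nxt k := by
  have e1 : code [j] = replicate j false ++ [true] := by simp [code, run1, hj]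
  have e2 : run1 k = [true, true] := by simp [run1, hk]
  have e3 : nxt k = 2 := by simp [nxt, hk]
  rw [e1, e2, e3, T_gap, T_run0 hp, hn, chi_append, chi_replicate]
  refine ⟨rfl, ?_⟩
  simp only [chi_cons, chi_nil, wt, if_true]
  omega

theorem piece_s {p i j k : ℕ} (hi : i % 2 = 1) (hj : j % 2 = 1) (hk : k % 2 = 0)
    (hn : nm p i + 1 + nm (p + i + 2) j = k) (hp : (p + i) % 3 = 2) (hp2 : (p + i + 2 + j) % 3 = 0) :
    T p (code [i, j]) = replicate k false ++ run1 k ∧ (p + chi (code [i, j])) % 3 = nxt k := by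
  have e1 : code [i, j] = replicate i false ++ ([true] ++ (replicate j false ++ [true])) := by simp [code, run1, hi, hj]
  have e2 : run1 k = [true, true] := by simp [run1, hk]
  have e3 : nxt k = 2 := by simp [nxt, hk]
  have e4 : T (p + i) [true] = [false] := T_run2 hp
  have e5 : chi [true] = 2 := rfl
  rw [e1, e2, e3, T_gap, T_append, e4, e5, T_gap, T_run0 hp2, chi_append, chi_append, chi_append, chi_replicate,
    chi_replicate, e5]
  constructor
  · have e6 : ([false] : List Bool) = replicate 1 false := rfl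
    rw [e6, rep_add, rep_add, hn]
  · omega

/-- the preimage of one gap -/
theorem piece (e k : ℕ) (he : e = 0 ∨ e = 2) (hk : 5 ≤ k) (h6 : e = 2 → k ≠ 6) : ∃ js : List ℕ,
    T e (code js) = replicate k false ++ run1 k ∧ (e + chi (code js)) % 3 = nxt k ∧
      ∀ rest ctx, (ctx = 0 ∨ e = 0) → (∀ ctx', (ctx' = 0 ∨ nxt k = 0) → Good ctx' rest) → Good ctx (js ++ rest) := by
  obtain ⟨q, hq⟩ : ∃ q, k = 4 * q ∨ k = 4 * q + 1 ∨ k = 4 * q + 2 ∨ k = 4 * q + 3 := ⟨k / 4, by omega⟩
  have hg : ∀ j rest ctx, (ctx = 0 ∨ e = 0) → 5 ≤ j → (e = 0 → j ≠ 6) → (nxt j = 0 ∨ nxt k = 0) →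
      (∀ ctx', (ctx' = 0 ∨ nxt k = 0) → Good ctx' rest) → Good ctx (j :: rest) := by
    intro j rest ctx hctx h5 h6 hn hr
    refine ⟨h5, fun h2 => ?_, hr _ hn⟩
    rcases hctx with h | h
    · omega
    · exact h6 h
  rcases he with rfl | rfl
  · rcases hq with rfl | rfl | rfl | rfl
    · -- split
      obtain ⟨h1, h2⟩ := piece_s (p := 0) (i := 5) (j := 6 * q - 7) (k := 4 * q) (by norm_num) (by omega) (by omega)
        (by simp only [nm]; omega) (by norm_num) (by omega)
      refine ⟨[5, 6 * q - 7], h1, h2, fun rest ctx hctx hr => ?_⟩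
      have n5 : nxt 5 = 0 := by simp [nxt]
      have nj : nxt (6 * q - 7) = 0 := by
        unfold nxt
        rw [if_pos (by omega)]
      exact ⟨le_rfl, fun _ => by norm_num, ⟨by omega, fun h => by omega, by rw [nj]; exact hr 0 (Or.inl rfl)⟩⟩
    · obtain ⟨h1, h2⟩ := piece_o1 (p := 0) (j := 6 * q + 1) (k := 4 * q + 1) (by omega) (by omega)
        (by simp only [nm]; omega) (by omega)
      refine ⟨[6 * q + 1], h1, h2, fun rest ctx hctx hr => hg _ _ _ hctx (by omega) (by omega) (Or.inr ?_) hr⟩
      unfold nxt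
      rw [if_pos (by omega)]
    · obtain ⟨h1, h2⟩ := piece_e (p := 0) (j := 6 * q + 3) (k := 4 * q + 2) (by omega) (by omega)
        (by simp only [nm]; omega) (by omega)
      refine ⟨[6 * q + 3], h1, h2, fun rest ctx hctx hr => hg _ _ _ hctx (by omega) (by omega) (Or.inl ?_) hr⟩
      unfold nxt
      rw [if_pos (by omega)]
    · obtain ⟨h1, h2⟩ := piece_o2 (p := 0) (j := 6 * q + 2) (k := 4 * q + 3) (by omega) (by omega)
        (by simp only [nm]; omega) (by omega)
      refine ⟨[6 * q + 2], h1, h2, fun rest ctx hctx hr => hg _ _ _ hctx (by omega) (by omega) (Or.inr ?_) hr⟩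
      unfold nxt
      rw [if_pos (by omega)]
  · rcases hq with rfl | rfl | rfl | rfl
    · obtain ⟨h1, h2⟩ := piece_e (p := 2) (j := 6 * q + 1) (k := 4 * q) (by omega) (by omega)
        (by simp only [nm]; omega) (by omega)
      refine ⟨[6 * q + 1], h1, h2, fun rest ctx hctx hr => hg _ _ _ hctx (by omega) (by omega) (Or.inl ?_) hr⟩
      unfold nxt
      rw [if_pos (by omega)]
    · obtain ⟨h1, h2⟩ := piece_o2 (p := 2) (j := 6 * q) (k := 4 * q + 1) (by omega) (by omega)
        (by simp only [nm]; omega) (by omega)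
      refine ⟨[6 * q], h1, h2, fun rest ctx hctx hr => hg _ _ _ hctx (by omega) (by omega) (Or.inr ?_) hr⟩
      unfold nxt
      rw [if_pos (by omega)]
    · -- split
      have h7 := h6 rfl
      obtain ⟨h1, h2⟩ := piece_s (p := 2) (i := 9) (j := 6 * q - 7) (k := 4 * q + 2) (by norm_num) (by omega) (by omega)
        (by simp only [nm]; omega) (by norm_num) (by omega)
      refine ⟨[9, 6 * q - 7], h1, h2, fun rest ctx hctx hr => ?_⟩
      have n5 : nxt 9 = 0 := by simp [nxt]
      have nj : nxt (6 * q - 7) = 0 := by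
        unfold nxt
        rw [if_pos (by omega)]
      exact ⟨by norm_num, fun _ => by norm_num, ⟨by omega, fun h => by omega, by rw [nj]; exact hr 0 (Or.inl rfl)⟩⟩
    · obtain ⟨h1, h2⟩ := piece_o1 (p := 2) (j := 6 * q + 5) (k := 4 * q + 3) (by omega) (by omega)
        (by simp only [nm]; omega) (by omega)
      refine ⟨[6 * q + 5], h1, h2, fun rest ctx hctx hr => hg _ _ _ hctx (by omega) (by omega) (Or.inr ?_) hr⟩
      unfold nxt
      rw [if_pos (by omega)]

/-- the preimage of a list of gaps -/
theorem pre (ks : List ℕ) : ∀ e, (e = 0 ∨ e = 2) → Good e ks → ∃ js : List ℕ, T e (code js) = code ks ∧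
    (e + chi (code js)) % 3 = fin e ks ∧
      ∀ rest ctx, (ctx = 0 ∨ e = 0) → (∀ ctx', Good ctx' rest) → Good ctx (js ++ rest) := by
  induction ks with
  | nil =>
    intro e he _
    refine ⟨[], rfl, ?_, fun rest ctx _ hr => hr ctx⟩
    rcases he with rfl | rfl <;> rfl
  | cons k ks ih =>
    intro e he hg
    obtain ⟨h5, h6, hg'⟩ := hg
    obtain ⟨js, h1, h2, h3⟩ := piece e k he h5 h6
    obtain ⟨is, g1, g2, g3⟩ := ih (nxt k) (nxt_cases k) hg'
    have hm : (e + chi (code js)) % 3 = nxt k % 3 := by
      rw [h2]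
      rcases nxt_cases k with h | h <;> rw [h]
    refine ⟨js ++ is, ?_, ?_, fun rest ctx hctx hr => ?_⟩
    · rw [code_append, T_append, h1, T_congr (code is) hm, g1]
      simp [code]
    · have h4 : (nxt k + chi (code is)) % 3 = fin e (k :: ks) := g2
      rw [code_append, chi_append, ← h4]
      omega
    · rw [List.append_assoc]
      exact h3 _ ctx hctx fun ctx' hctx' => g3 rest ctx' hctx' hr

/-! ### Admissible words -/

/-- long runs of `a` at both ends, a single `b` after the first one; `s` and `e` are the phases at the start and at the end of the pass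
whose result the word is -/
def Adm (N s e : ℕ) (w : List Bool) : Prop := ∃ (n : ℕ) (ks : List ℕ) (m : ℕ),
  w = replicate n false ++ (true :: (code ks ++ replicate m false)) ∧ N ≤ n ∧ N ≤ m ∧ Good 0 ks ∧
    (n % 2 = 1 ↔ s % 3 ≠ 1) ∧ (m % 2 = 1 ↔ e % 3 = 1)

theorem exists_i (s n b : ℕ) (hn : 36 ≤ n) (hs : n % 2 = 1 ↔ s % 3 ≠ 1) : ∃ i, n + 1 ≤ i ∧ (s + i) % 3 = 2 ∧
    i % 2 = b % 2 ∧ (nm s i + 7 = n ∨ nm s i + 9 = n) := by
  have h3 : s % 3 = 0 ∨ s % 3 = 1 ∨ s % 3 = 2 := by omega
  rcases h3 with h3 | h3 | h3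
  · by_cases hp : (3 * ((n - 11) / 2) + 2) % 2 = b % 2
    · exact ⟨3 * ((n - 11) / 2) + 2, by omega, by omega, by omega, by simp only [nm]; omega⟩
    · exact ⟨3 * ((n - 9) / 2) + 2, by omega, by omega, by omega, by simp only [nm]; omega⟩
  · by_cases hp : (3 * ((n - 9) / 2) + 1) % 2 = b % 2
    · exact ⟨3 * ((n - 9) / 2) + 1, by omega, by omega, by omega, by simp only [nm]; omega⟩
    · exact ⟨3 * ((n - 7) / 2) + 1, by omega, by omega, by omega, by simp only [nm]; omega⟩
  · by_cases hp : (3 * ((n - 9) / 2)) % 2 = b % 2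
    · exact ⟨3 * ((n - 9) / 2), by omega, by omega, by omega, by simp only [nm]; omega⟩
    · exact ⟨3 * ((n - 7) / 2), by omega, by omega, by omega, by simp only [nm]; omega⟩

/-- the first run and the first `b` -/
theorem front (s n b : ℕ) (hn : 36 ≤ n) (hs : n % 2 = 1 ↔ s % 3 ≠ 1) : ∃ i j, n + 1 ≤ i ∧ i % 2 = b % 2 ∧
    (j = 9 ∨ j = 10) ∧ T s (replicate i false ++ (true :: code [j])) = replicate n false ++ [true] ∧
      (s + chi (replicate i false ++ (true :: code [j]))) % 3 = 0 := by
  obtain ⟨i, h1, h2, h3, h4⟩ := exists_i s n b hn hs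
  have e4 : T (s + i) [true] = [false] := T_run2 h2
  have e5 : chi [true] = 2 := rfl
  have e6 : ([false] : List Bool) = replicate 1 false := rfl
  rcases h4 with h4 | h4
  · refine ⟨i, 9, h1, h3, Or.inl rfl, ?_, ?_⟩
    · have e1 : true :: code [9] = [true] ++ (replicate 9 false ++ [true]) := by simp [code, run1]
      have e7 : nm (s + i + 2) 9 = 6 := by simp only [nm]; omega
      rw [e1, T_gap, T_append, e4, e5, T_gap, e7, T_run1 (by omega), e6, rep_add, rep_add]
      congr 2
    · have e1 : true :: code [9] = [true] ++ (replicate 9 false ++ [true]) := by simp [code, run1]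
      rw [e1, chi_append, chi_append, chi_append, chi_replicate, chi_replicate, e5]
      omega
  · refine ⟨i, 10, h1, h3, Or.inr rfl, ?_, ?_⟩
    · have e1 : true :: code [10] = [true] ++ (replicate 10 false ++ [true, true]) := by simp [code, run1]
      have e7 : nm (s + i + 2) 10 = 7 := by simp only [nm]; omega
      have e8 : ([false, true] : List Bool) = replicate 1 false ++ [true] := rfl
      rw [e1, T_gap, T_append, e4, e5, T_gap, e7, T_run22 (by omega), e6, e8, rep_add, rep_add, rep_add]
      congr 2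
    · have e1 : true :: code [10] = [true] ++ (replicate 10 false ++ ([true] ++ [true])) := by simp [code, run1]
      rw [e1, chi_append, chi_append, chi_append, chi_append, chi_replicate, chi_replicate, e5]
      omega

theorem exists_j (c m e b : ℕ) (hc : c = 5 ∨ c = 7) (hm : 48 ≤ m) (hs : m % 2 = 1 ↔ e % 3 = 1) :
    ∃ j d, m + 1 ≤ j ∧ (1 + j) % 3 = e % 3 ∧ (j % 2 = 1 ↔ b % 3 = 1) ∧ (d = 0 ∨ d = 6) ∧ c + d + nm 1 j = m := by
  obtain ⟨r, hr⟩ : ∃ r, r = (e + 2) % 3 := ⟨_, rfl⟩
  by_cases hp : ((3 * ((m - c) / 2) + r) % 2 = 1 ↔ b % 3 = 1)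
  · refine ⟨3 * ((m - c) / 2) + r, 0, by omega, by omega, hp, Or.inl rfl, ?_⟩
    simp only [nm]
    rcases hc with rfl | rfl <;> omega
  · refine ⟨3 * ((m - c - 6) / 2) + r, 6, by omega, by omega, ?_, Or.inr rfl, ?_⟩
    · have h1 : (m - c) / 2 = (m - c - 6) / 2 + 3 := by omega
      rw [h1] at hp
      constructor
      · intro h2
        by_contra h3
        exact hp ⟨fun h4 => by omega, fun h4 => absurd h4 h3⟩
      · intro h2
        by_contra h3
        exact hp ⟨fun _ => h2, fun _ => by omega⟩
    · simp only [nm]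
      rcases hc with rfl | rfl <;> omega

/-- the last run -/
theorem backend (p m e b : ℕ) (hp : p = 0 ∨ p = 2) (hm : 48 ≤ m) (hs : m % 2 = 1 ↔ e % 3 = 1) : ∃ (js : List ℕ) (j : ℕ),
    m + 1 ≤ j ∧ (j % 2 = 1 ↔ b % 3 = 1) ∧ (∀ ctx, Good ctx js) ∧
      T p (code js ++ replicate j false) = replicate m false ∧ (p + chi (code js ++ replicate j false)) % 3 = e % 3 := by
  have e5 : chi [true] = 2 := rfl
  have e6 : ([false] : List Bool) = replicate 1 false := rfl
  obtain ⟨i, c, hi, hi2, hi3, hc, hn, hgi⟩ : ∃ i c : ℕ, i % 2 = 1 ∧ 5 ≤ i ∧ (p + i) % 3 = 2 ∧ (c = 5 ∨ c = 7) ∧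
      nm p i + 1 = c ∧ i ≠ 6 := by
    rcases hp with rfl | rfl
    · exact ⟨5, 5, by norm_num, by norm_num, by norm_num, Or.inl rfl, by simp only [nm], by norm_num⟩
    · exact ⟨9, 7, by norm_num, by norm_num, by norm_num, Or.inr rfl, by simp only [nm], by norm_num⟩
  obtain ⟨j, d, h1, h2, h3, h4, h5⟩ := exists_j c m e b hc hm hs
  have c1 : code [i] = replicate i false ++ [true] := by simp [code, run1, hi]
  have e4 : T (p + i) [true] = [false] := T_run2 hi3
  have ni : nxt i = 0 := by simp [nxt, hi]
  rcases h4 with rfl | rfl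
  · refine ⟨[i], j, h1, h3, fun ctx => ⟨hi2, fun _ => hgi, trivial⟩, ?_, ?_⟩
    · have e7 : nm (p + i + 2) j = nm 1 j := by
        simp only [nm]
        have : (p + i + 2) % 3 = 1 := by omega
        rw [this]
      rw [c1, List.append_assoc, T_gap, T_append, e4, e5, T_replicate, e7, e6, ← List.replicate_add, ← List.replicate_add]
      congr 1
      omega
    · rw [c1, chi_append, chi_append, chi_replicate, chi_replicate, e5]
      omega
  · have c2 : code [i, 7] = replicate i false ++ ([true] ++ (replicate 7 false ++ [true])) := by simp [code, run1, hi]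
    refine ⟨[i, 7], j, h1, h3, fun ctx => ⟨hi2, fun _ => hgi, ⟨by norm_num, fun _ => by norm_num, trivial⟩⟩, ?_, ?_⟩
    · have e7 : nm (p + i + 2 + 7 + 2) j = nm 1 j := by
        simp only [nm]
        have : (p + i + 2 + 7 + 2) % 3 = 1 := by omega
        rw [this]
      have e8 : nm (p + i + 2) 7 = 5 := by simp only [nm]; omega
      have e9 : T (p + i + 2 + 7) [true] = [false] := T_run2 (by omega)
      rw [c2]
      simp only [List.append_assoc]
      rw [T_gap, T_append, e4, e5, T_gap, T_append, e8, e9, e5, T_replicate, e7, e6, rep_add, rep_add, rep_add,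
        ← List.replicate_add]
      congr 1
      omega
    · rw [c2, chi_append, chi_append, chi_append, chi_append, chi_replicate, chi_replicate, chi_replicate, e5]
      omega

/-- every admissible word has admissible preimages for all phases -/
theorem back {N s e : ℕ} {w' : List Bool} (hN : 48 ≤ N) (h : Adm N s e w') (s' e' : ℕ) : ∃ w, T s w = w' ∧
    (s + chi w) % 3 = e % 3 ∧ Adm (N + 1) s' e' w := by
  obtain ⟨n, ks, m, rfl, hn, hm, hg, hs, he⟩ := h
  obtain ⟨i, j0, a1, a2, a3, a4, a5⟩ := front s n (if s' % 3 = 1 then 0 else 1) (by omega) hs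
  obtain ⟨js, b1, b2, b3⟩ := pre ks 0 (Or.inl rfl) hg
  obtain ⟨js2, j, c1, c2, c3, c4, c5⟩ := backend (fin 0 ks) m e e' (fin_cases' ks 0 (Or.inl rfl)) (by omega) he
  have ew : replicate i false ++ (true :: (code (j0 :: (js ++ js2)) ++ replicate j false)) =
      (replicate i false ++ (true :: code [j0])) ++ (code js ++ (code js2 ++ replicate j false)) := by
    have : code (j0 :: (js ++ js2)) = code [j0] ++ (code js ++ code js2) := by
      rw [← code_append, ← code_append]
      rfl
    rw [this]
    simp only [List.append_assoc, List.cons_append]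
  have p1 : (s + chi (replicate i false ++ (true :: code [j0]))) % 3 = 0 % 3 := by rw [a5]
  have p2 : (s + chi (replicate i false ++ (true :: code [j0])) + chi (code js)) % 3 = fin 0 ks % 3 := by
    have : (0 + chi (code js)) % 3 % 3 = fin 0 ks % 3 := by rw [b2]
    omega
  refine ⟨replicate i false ++ (true :: (code (j0 :: (js ++ js2)) ++ replicate j false)), ?_, ?_, ?_⟩
  · rw [ew, T_append (replicate i false ++ (true :: code [j0])), T_append (code js), a4, T_congr (code js) p1, b1,
      T_congr (code js2 ++ replicate j false) p2, c4]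
    simp
  · rw [ew, chi_append (replicate i false ++ (true :: code [j0])), chi_append (code js)]
    omega
  · refine ⟨i, j0 :: (js ++ js2), j, rfl, by omega, by omega, ?_, ?_, ?_⟩
    · refine ⟨by omega, fun h => by omega, ?_⟩
      exact b3 js2 _ (Or.inr rfl) c3
    · by_cases h : s' % 3 = 1
      · rw [if_pos h] at a2
        constructor
        · intro h1
          omega
        · intro h1
          exact absurd h h1
      · rw [if_neg h] at a2
        exact ⟨fun _ => h, fun _ => by omega⟩
    · exact c2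

end Pool.Agent.PT33
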