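import Pool.Agent.PT33.Fam

/-!
# [PT33-Least] least periods and families of periodic computations (helper33)

`heads`: the symbols read during one pass are the letters of the result of the pass. `least`: the least period of a word fixed by a pass.
`Data`, `ok`: the finite data of one family of computations and the finite check; `fill_data`: what the check proves.
-/

set_option autoImplicit false

namespace Pool.Agent.PT33

open Pool.Agent.PostTag List

theorem heads1 (p : ℕ) (x : Bool) (rest : List Bool) (hr : 4 ≤ rest.length) (j : ℕ) (hj : j < (out p x).length) :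
    (out p x)[j]? = some (step^[j] ((blk x ++ rest).drop (p % 3))).headI := by
  obtain ⟨c1, c2, c3, c4, r, rfl⟩ : ∃ c1 c2 c3 c4 r, rest = c1 :: c2 :: c3 :: c4 :: r := by
    rcases rest with _ | ⟨c1, _ | ⟨c2, _ | ⟨c3, _ | ⟨c4, r⟩⟩⟩⟩
    · simp at hr
    · simp at hr
    · simp at hr
    · simp at hr
    · exact ⟨c1, c2, c3, c4, r, rfl⟩
  have hp : p % 3 = 0 ∨ p % 3 = 1 ∨ p % 3 = 2 := by omega
  rcases hp with hp | hp | hp <;> cases x
  · have e : out p false = [false] := by simp [out, hp]
    rw [e] at hj ⊢
    have : j = 0 := by simpa using hj
    subst this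
    rw [hp]
    simp [blk]
  · have e : out p true = [true, true] := by simp [out, hp]
    rw [e] at hj ⊢
    have : j = 0 ∨ j = 1 := by simp at hj; omega
    rcases this with rfl | rfl
    · rw [hp]
      simp [blk]
    · rw [hp]
      simp [blk, step]
  · have e : out p false = [false] := by simp [out, hp]
    rw [e] at hj ⊢
    have : j = 0 := by simpa using hj
    subst this
    rw [hp]
    simp [blk]
  · have e : out p true = [true] := by simp [out, hp]
    rw [e] at hj ⊢
    have : j = 0 := by simpa using hj
    subst this
    rw [hp]
    simp [blk]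
  · have e : out p false = [] := by simp [out, hp]
    rw [e] at hj
    simp at hj
  · have e : out p true = [false] := by simp [out, hp]
    rw [e] at hj ⊢
    have : j = 0 := by simpa using hj
    subst this
    rw [hp]
    simp [blk]

theorem heads (U : List Bool) : ∀ (p : ℕ) (rest : List Bool), 4 ≤ rest.length → ∀ j, j < (T p U).length →
    (T p U)[j]? = some (step^[j] ((dec U ++ rest).drop (p % 3))).headI := by
  induction U with
  | nil => intro p rest _ j hj; simp at hj
  | cons x U ih =>
    intro p rest hr j hj
    rw [T_cons] at hj ⊢
    rw [dec_cons, List.append_assoc]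
    have hr2 : 4 ≤ (dec U ++ rest).length := by rw [List.length_append]; omega
    by_cases h : j < (out p x).length
    · rw [List.getElem?_append_left h]
      exact heads1 p x _ hr2 j h
    · rw [List.getElem?_append_right (by omega)]
      obtain ⟨i, hi⟩ : ∃ i, j = i + (out p x).length := ⟨j - (out p x).length, by omega⟩
      have e1 : j - (out p x).length = i := by omega
      rw [List.length_append] at hj
      rw [e1, ih (p + wt x) (rest ++ dec (out p x)) (by rw [List.length_append]; omega) i (by omega), hi,
        Function.iterate_add_apply, letterX p x _ hr2, List.append_assoc]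

/-- the symbols read by a computation whose word is fixed by a pass from phase one -/
theorem heads_fix {A B : List Bool} (h1 : T 1 (A ++ B) = A ++ B) (hA : 2 ≤ (T 1 A).length)
    (hB : 2 ≤ B.length) (j : ℕ) (hj : j < (A ++ B).length) :
    (A ++ B)[j]? = some (step^[j] ((dec (A ++ B)).drop 1)).headI := by
  have h1' := h1
  rw [T_append] at h1'
  have e5 : (1 : ℕ) % 3 = 1 := rfl
  rw [← h1'] at hj
  rw [List.length_append] at hj
  by_cases h : j < (T 1 A).length
  · have e1 := heads A 1 (dec B) (two_le B hB) j h
    rw [e5, ← dec_append] at e1
    rw [← e1]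
    conv_lhs => rw [← h1']
    rw [List.getElem?_append_left h]
  · obtain ⟨i, hi⟩ : ∃ i, j = i + (T 1 A).length := ⟨j - (T 1 A).length, by omega⟩
    have e2 := heads B (1 + chi A) (dec (T 1 A)) (two_le _ hA) i (by omega)
    have e3 := partX A 1 (dec B) (two_le B hB)
    rw [e5, ← dec_append] at e3
    conv_lhs => rw [← h1']
    rw [List.getElem?_append_right (by omega)]
    have e4 : j - (T 1 A).length = i := by omega
    rw [e4, e2, hi, Function.iterate_add_apply, e3]

/-- the least period -/
theorem least {X z : List Bool} (hX : 0 < X.length) (hper : step^[X.length] z = z)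
    (hh : ∀ j, j < X.length → X[j]? = some (step^[j] z).headI)
    (hne : ∀ g, 0 < g → 2 * g ≤ X.length → X.drop g ≠ X.take (X.length - g)) : Function.minimalPeriod step z = X.length := by
  have hp : Function.IsPeriodicPt step X.length z := hper
  have hd := hp.minimalPeriod_dvd
  obtain ⟨g, hg⟩ : ∃ g, g = Function.minimalPeriod step z := ⟨_, rfl⟩
  have hgz : step^[g] z = z := by
    rw [hg]
    exact Function.iterate_minimalPeriod
  rw [← hg] at hd ⊢
  obtain ⟨m, hm⟩ := hd
  by_contra hcon
  have hm0 : m ≠ 0 := by
    rintro rfl
    omega
  have hg0 : 0 < g := by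
    rcases Nat.eq_zero_or_pos g with h | h
    · rw [h] at hm
      omega
    · exact h
  have hm1 : m ≠ 1 := by
    rintro rfl
    omega
  have h2 : 2 * g ≤ X.length := by
    rw [hm, mul_comm]
    exact Nat.mul_le_mul_left g (by omega)
  apply hne g hg0 h2
  apply List.ext_getElem?
  intro j
  rw [List.getElem?_drop, List.getElem?_take]
  by_cases hj : j < X.length - g
  · rw [if_pos hj, hh (g + j) (by omega), hh j (by omega), add_comm g j, Function.iterate_add_apply, hgz]
  · rw [if_neg hj]
    exact List.getElem?_eq_none (by omega)

/-! ### The periodic families -/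

/-- the repeated part -/
def BB : List Bool := [true, true, true, false, false, false, true, true, true, false, false, false]

/-- the words fixed by a pass -/
def XX (G : List Bool) (t : ℕ) : List Bool := G ++ rp t BB

/-- the periodic words -/
def ZZ (G : List Bool) (t : ℕ) : List Bool := (dec (XX G t)).drop 1

/-- the check for the least period -/
def okG (G : List Bool) : Bool :=
  decide (T 1 G = G) && (decide (chi G % 3 = 0) && (decide (32 ≤ G.length) &&
    ((List.range G.length).all (fun g => decide (g = 0 ∨ (G.drop g ++ rp 3 BB).take 32 ≠ G.take 32)) &&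
      ((List.range 12).all (fun r => decide ((BB.drop r ++ rp 3 BB).take 32 ≠ G.take 32)) &&
        (List.range 8).all (fun t => (List.range (XX G t).length).all (fun g => decide (g = 0 ∨ (XX G t).length < 2 * g ∨
          (XX G t).drop g ≠ (XX G t).take ((XX G t).length - g))))))))

theorem length_XX (G : List Bool) (t : ℕ) : (XX G t).length = G.length + 12 * t := by
  rw [XX, List.length_append, length_rp]
  simp only [BB, List.length_cons, List.length_nil]
  omega

theorem fixed_XX {G : List Bool} (h1 : T 1 G = G) (h2 : chi G % 3 = 0) (t : ℕ) : T 1 (XX G t) = XX G t ∧ chi (XX G t) % 3 = 0 := by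
  have hB : chi BB % 3 = 0 := by decide
  have hT : T 1 BB = BB := by decide
  constructor
  · rw [XX, T_append, h1, T_congr (rp t BB) (show (1 + chi G) % 3 = 1 % 3 by omega), T_rp hB, hT]
  · rw [XX, chi_append]
    have := chi_rp hB t
    omega

theorem least_XX {G : List Bool} (h : okG G = true) (t : ℕ) : Function.minimalPeriod step (ZZ G t) = G.length + 12 * t := by
  simp only [okG, Bool.and_eq_true, decide_eq_true_eq, List.all_eq_true, List.mem_range] at h
  obtain ⟨h1, h2, h3, h4, h5, h6⟩ := h
  obtain ⟨f1, f2⟩ := fixed_XX h1 h2 t
  have hXl := length_XX G t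
  have hA : 2 ≤ (T 1 (G.take 4)).length := by
    have hd4 : ∀ x1 x2 x3 x4 : Bool, 2 ≤ (T 1 [x1, x2, x3, x4]).length := by decide
    obtain ⟨x1, x2, x3, x4, G', hG⟩ : ∃ x1 x2 x3 x4 G', G = x1 :: x2 :: x3 :: x4 :: G' := by
      rcases G with _ | ⟨x1, _ | ⟨x2, _ | ⟨x3, _ | ⟨x4, G'⟩⟩⟩⟩
      · simp at h3
      · simp at h3
      · simp at h3
      · simp at h3
      · exact ⟨x1, x2, x3, x4, G', rfl⟩
    rw [hG]
    exact hd4 x1 x2 x3 x4
  have hcut : XX G t = G.take 4 ++ (G.drop 4 ++ rp t BB) := by
    rw [← List.append_assoc, List.take_append_drop]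
    rfl
  have hB : 2 ≤ (G.drop 4 ++ rp t BB).length := by
    rw [List.length_append, List.length_drop]
    omega
  rw [ZZ, ← hXl]
  apply least (by omega)
  · have := periodic (A := G.take 4) (B := G.drop 4 ++ rp t BB) (by rw [← hcut]; exact f1) (by rw [← hcut]; exact f2) hA hB
    rwa [← hcut] at this
  · intro j hj
    have := heads_fix (A := G.take 4) (B := G.drop 4 ++ rp t BB) (by rw [← hcut]; exact f1) hA hB j (by rw [← hcut]; exact hj)
    rwa [← hcut] at this
  · intro g hg hg2 heq
    by_cases ht : t < 8
    · rcases h6 t ht g (by omega) with h | h | h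
      · omega
      · omega
      · exact h heq
    · have hBl : BB.length = 12 := rfl
      have hG32 : (XX G t).take 32 = G.take 32 := by
        rw [XX, List.take_append_of_le_length h3]
      have e1 : ((XX G t).drop g).take 32 = G.take 32 := by
        rw [heq, List.take_take, min_eq_left (by omega), hG32]
      by_cases hgG : g < G.length
      · rcases h4 g hgG with h | h
        · omega
        · apply h
          obtain ⟨t', ht'⟩ : ∃ t', t = 3 + t' := ⟨t - 3, by omega⟩
          rw [← e1, XX, List.drop_append_of_le_length (by omega), ht', rp_add, ← List.append_assoc]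
          refine (List.take_append_of_le_length ?_).symm
          rw [List.length_append, length_rp, hBl]
          omega
      · obtain ⟨a, r, hr, hgar⟩ : ∃ a r, r < 12 ∧ g = G.length + 12 * a + r :=
          ⟨(g - G.length) / 12, (g - G.length) % 12, Nat.mod_lt _ (by norm_num), by omega⟩
        apply h5 r hr
        obtain ⟨t', ht'⟩ : ∃ t', t = a + (1 + (3 + t')) := ⟨t - a - 4, by omega⟩
        have e2 : XX G t = (G ++ rp a BB) ++ (BB ++ (rp 3 BB ++ rp t' BB)) := by
          rw [XX, ht', rp_add, rp_add, rp_add]
          simp [rp]
        have e3 : g = (G ++ rp a BB).length + r := by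
          rw [List.length_append, length_rp, hBl]
          omega
        rw [← e1, e2, e3, ← List.drop_drop, List.drop_left, List.drop_append_of_le_length (by omega), ← List.append_assoc]
        refine (List.take_append_of_le_length ?_).symm
        rw [List.length_append, length_rp, hBl]
        omega

end Pool.Agent.PT33
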