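import Pool.Agent.PT33.Data

/-!
# [PT33-Tab] the table of families and seeds (helper33)

Six families of computations give all even least periods from `48` on, thirteen single computations the small ones.
-/

set_option autoImplicit false

namespace Pool.Agent.PT33

open Pool.Agent.PostTag List

/-! ### Single computations -/

/-- one pass -/
def pw (c : ℕ × List Bool) : ℕ × List Bool := ((c.1 + chi c.2) % 3, T c.1 c.2)

theorem pass1 {z : List Bool} (c : ℕ × List Bool) (hc : 6 ≤ c.2.length) (h : Rch z ((dec (pw c).2).drop ((pw c).1 % 3))) :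
    Rch z ((dec c.2).drop (c.1 % 3)) := by
  obtain ⟨q, W⟩ := c
  simp only [pw] at h hc ⊢
  obtain ⟨x1, x2, x3, x4, x5, x6, W', rfl⟩ : ∃ x1 x2 x3 x4 x5 x6 W', W = x1 :: x2 :: x3 :: x4 :: x5 :: x6 :: W' := by
    rcases W with _ | ⟨x1, _ | ⟨x2, _ | ⟨x3, _ | ⟨x4, _ | ⟨x5, _ | ⟨x6, W'⟩⟩⟩⟩⟩⟩
    · simp at hc
    · simp at hc
    · simp at hc
    · simp at hc
    · simp at hc
    · simp at hc
    · exact ⟨x1, x2, x3, x4, x5, x6, W', rfl⟩
  have hd4 : ∀ r < 3, ∀ x1 x2 x3 x4 : Bool, 2 ≤ (T r [x1, x2, x3, x4]).length := by decide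
  have hT : 2 ≤ (T q [x1, x2, x3, x4]).length := by
    rw [T_congr [x1, x2, x3, x4] (show q % 3 = (q % 3) % 3 by omega)]
    exact hd4 _ (Nat.mod_lt _ (by norm_num)) x1 x2 x3 x4
  have e : x1 :: x2 :: x3 :: x4 :: x5 :: x6 :: W' = [x1, x2, x3, x4] ++ (x5 :: x6 :: W') := rfl
  rw [e] at h ⊢
  rw [dec_append]
  apply part _ q _ (two_le _ (by simp))
  apply part _ _ _ (two_le _ hT)
  rw [T_append, chi_append] at h
  rw [← dec_append]
  have e2 : (q + chi [x1, x2, x3, x4] + chi (x5 :: x6 :: W')) % 3 =
      (q + (chi [x1, x2, x3, x4] + chi (x5 :: x6 :: W'))) % 3 % 3 := by omega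
  rw [e2]
  exact h

theorem passes {z : List Bool} (J : ℕ) : ∀ c : ℕ × List Bool, (∀ j < J, 6 ≤ (pw^[j] c).2.length) →
    Rch z ((dec (pw^[J] c).2).drop ((pw^[J] c).1 % 3)) → Rch z ((dec c.2).drop (c.1 % 3)) := by
  induction J with
  | zero => intro c _ h; exact h
  | succ J ih =>
    intro c hc h
    apply pass1 c (hc 0 (Nat.succ_pos J))
    apply ih (pw c)
    · intro j hj
      have := hc (j + 1) (by omega)
      rwa [Function.iterate_succ_apply] at this
    · rwa [Function.iterate_succ_apply] at h

/-- the word at the start -/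
def sw (n : ℕ) (ks : List ℕ) (m : ℕ) : List Bool := replicate n false ++ (true :: (code ks ++ replicate m false))

/-- the word fixed by a pass -/
def sx (d : ℕ) (c : ℕ × List Bool) : List Bool := c.2.drop d ++ T c.1 (c.2.take d)

/-- the finite check of one computation -/
def okS (n : ℕ) (ks : List ℕ) (m q J d p : ℕ) : Bool :=
  decide (48 ≤ n) && (decide (48 ≤ m) && (decide (m % 2 = 1 ↔ q % 3 = 1) && (decide (Good 0 ks) &&
    ((List.range J).all (fun j => decide (6 ≤ (pw^[j] (q, sw n ks m)).2.length)) &&
      (decide (2 ≤ ((pw^[J] (q, sw n ks m)).2.drop d).length) &&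
        (decide (((pw^[J] (q, sw n ks m)).1 + chi ((pw^[J] (q, sw n ks m)).2.take d)) % 3 = 1) &&
          (decide (T 1 (sx d (pw^[J] (q, sw n ks m))) = sx d (pw^[J] (q, sw n ks m))) &&
            (decide (chi (sx d (pw^[J] (q, sw n ks m))) % 3 = 0) && (decide ((sx d (pw^[J] (q, sw n ks m))).length = p) &&
              (decide (6 ≤ p) && (List.range p).all (fun g => decide (g = 0 ∨ p < 2 * g ∨
                (sx d (pw^[J] (q, sw n ks m))).drop g ≠ (sx d (pw^[J] (q, sw n ks m))).take (p - g)))))))))))))

theorem fill_seed {n : ℕ} {ks : List ℕ} {m q J d p : ℕ} (h : okS n ks m q J d p = true) :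
    ∃ z, (∀ N q, Fill z N [] q) ∧ Function.minimalPeriod step z = p := by
  simp only [okS, Bool.and_eq_true, decide_eq_true_eq, List.all_eq_true, List.mem_range] at h
  obtain ⟨h1, h2, h3, h4, h5, h6, h7, h8, h9, h10, h11, h12⟩ := h
  obtain ⟨c, hc⟩ : ∃ c, c = pw^[J] (q, sw n ks m) := ⟨_, rfl⟩
  rw [← hc] at h6 h7 h8 h9 h10 h12
  obtain ⟨X, hX⟩ : ∃ X, X = sx d c := ⟨_, rfl⟩
  rw [← hX] at h8 h9 h10 h12
  refine ⟨(dec X).drop 1, ?_, ?_⟩
  · refine fill_of_seed n m q ks h1 h2 h4 h3 ?_
    have h13 : Rch ((dec X).drop 1) ((dec (pw^[J] (q, sw n ks m)).2).drop ((pw^[J] (q, sw n ks m)).1 % 3)) := by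
      rw [← hc]
      have e1 : c.2 = c.2.take d ++ c.2.drop d := (List.take_append_drop d c.2).symm
      rw [e1, dec_append]
      apply part _ _ _ (two_le _ h6)
      rw [h7, ← dec_append, hX]
      exact ⟨0, rfl⟩
    exact passes J (q, sw n ks m) h5 h13
  · obtain ⟨x1, x2, x3, x4, x5, x6, X', hX6⟩ : ∃ x1 x2 x3 x4 x5 x6 X', X = x1 :: x2 :: x3 :: x4 :: x5 :: x6 :: X' := by
      have hl : 6 ≤ X.length := by omega
      rcases X with _ | ⟨x1, _ | ⟨x2, _ | ⟨x3, _ | ⟨x4, _ | ⟨x5, _ | ⟨x6, X'⟩⟩⟩⟩⟩⟩
      · simp at hl
      · simp at hl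
      · simp at hl
      · simp at hl
      · simp at hl
      · simp at hl
      · exact ⟨x1, x2, x3, x4, x5, x6, X', rfl⟩
    have hd4 : ∀ x1 x2 x3 x4 : Bool, 2 ≤ (T 1 [x1, x2, x3, x4]).length := by decide
    have e : X = [x1, x2, x3, x4] ++ (x5 :: x6 :: X') := hX6
    rw [← h10]
    apply least (by omega)
    · have := periodic (A := [x1, x2, x3, x4]) (B := x5 :: x6 :: X') (by rw [← e]; exact h8) (by rw [← e]; exact h9)
        (hd4 x1 x2 x3 x4) (by simp)
      rwa [← e] at this
    · intro j hj
      have := heads_fix (A := [x1, x2, x3, x4]) (B := x5 :: x6 :: X') (by rw [← e]; exact h8) (hd4 x1 x2 x3 x4) (by simp) j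
        (by rw [← e]; exact hj)
      rwa [← e] at this
    · intro g hg hg2
      rw [h10]
      rcases h12 g (by omega) with h | h | h
      · omega
      · omega
      · exact h

/-! ### The table -/

/-- period `12 t + 40` -/
def r4 : Data where
  n := 53
  k1 := [7, 115, 134, 38]
  us := [9, 90, 38]
  e1 := [13, 43, 5, 11]
  m := 52
  q := 2
  J := 9
  q0 := 1
  X1 := [false, false, true, true, false, false, false, true, true, true, false, false, false, true, true, true, false, false, false, true, true, true, false, false, false]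
  E0 := [false, false, false, true, true, true, false, false, false, true, true, true, false]

set_option maxRecDepth 100000 in
theorem ok_r4 : ok r4 = true := by decide +kernel

theorem len_r4 : (GG r4).length = 40 := by decide +kernel

/-- period `12 t + 34` -/
def r10 : Data where
  n := 50
  k1 := [55, 8, 91, 38]
  us := [9, 90, 38]
  e1 := [43, 7, 32, 9, 9, 11]
  m := 50
  q := 2
  J := 9
  q0 := 1
  X1 := [false, false, true, true, false, false, false, true, true, true, false, false, false, true, true, true, false, false, false]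
  E0 := [false, false, false, true, true, true, false, false, false, true, true, true, false]

set_option maxRecDepth 100000 in
theorem ok_r10 : ok r10 = true := by decide +kernel

theorem len_r10 : (GG r10).length = 34 := by decide +kernel

/-- period `12 t + 38` -/
def r2 : Data where
  n := 50
  k1 := [9, 11, 5, 203, 9, 47]
  us := [12, 135, 9, 47]
  e1 := [18, 62, 26, 13, 13, 14]
  m := 48
  q := 2
  J := 10
  q0 := 2
  X1 := [false, false, true, false, true, true, true, false, false, false, true, true, true, false, false, false, true, true, true, false, false, false]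
  E0 := [false, false, false, true, true, true, false, false, false, true, true, true, false, false]

set_option maxRecDepth 100000 in
theorem ok_r2 : ok r2 = true := by decide +kernel

theorem len_r2 : (GG r2).length = 38 := by decide +kernel

/-- period `12 t + 44` -/
def r8 : Data where
  n := 65
  k1 := [9, 83, 18, 134, 38]
  us := [9, 90, 38]
  e1 := [43, 7, 32, 9, 9, 11]
  m := 65
  q := 1
  J := 9
  q0 := 2
  X1 := [false, false, true, true, true, false, false, false, true, false, true, true, true, false, false, false, true, true, true, false, false, false, true, true, true, false, false, false]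
  E0 := [false, false, false, true, true, true, false, false, false, true, true, true, false, false]

set_option maxRecDepth 100000 in
theorem ok_r8 : ok r8 = true := by decide +kernel

theorem len_r8 : (GG r8).length = 44 := by decide +kernel

/-- period `12 t + 42` -/
def r6 : Data where
  n := 68
  k1 := [7, 7, 44, 19, 140, 38]
  us := [9, 90, 38]
  e1 := [43, 7, 7, 5, 11, 6]
  m := 76
  q := 2
  J := 9
  q0 := 0
  X1 := [false, true, true, true, false, false, false, true, false, true, true, true, false, false, false, true, true, true, false, false, false, true, true, true, false, false, false]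
  E0 := [false, false, true, true, false, false, false, true, true, true, false, false]

set_option maxRecDepth 100000 in
theorem ok_r6 : ok r6 = true := by decide +kernel

theorem len_r6 : (GG r6).length = 42 := by decide +kernel

/-- period `12 t + 48` -/
def r0 : Data where
  n := 52
  k1 := [23, 50, 13, 91, 27]
  us := [6, 61, 27]
  e1 := [29, 5, 5, 12]
  m := 52
  q := 2
  J := 8
  q0 := 2
  X1 := [false, false, true, true, true, false, false, false, true, true, true, false, false, false, true, false, true, true, true, false, false, false, true, true, true, false, false, false, true, true, true, false, false, false]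
  E0 := [false, false, true, true, false, false, false, true, true, true, false, false]

set_option maxRecDepth 100000 in
theorem ok_r0 : ok r0 = true := by decide +kernel

theorem len_r0 : (GG r0).length = 48 := by decide +kernel

set_option maxRecDepth 100000 in
theorem seed_6 : okS 48 [] 48 0 9 1 6 = true := by decide +kernel

set_option maxRecDepth 100000 in
theorem seed_10 : okS 48 [] 62 0 19 5 10 = true := by decide +kernel

set_option maxRecDepth 100000 in
theorem seed_14 : okS 54 [5, 7, 10] 62 0 11 2 14 = true := by decide +kernel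

set_option maxRecDepth 100000 in
theorem seed_16 : okS 52 [10] 62 0 10 13 16 = true := by decide +kernel

set_option maxRecDepth 100000 in
theorem seed_18 : okS 60 [10, 7, 8] 62 0 9 3 18 = true := by decide +kernel

set_option maxRecDepth 100000 in
theorem seed_20 : okS 51 [7, 5] 62 0 10 3 20 = true := by decide +kernel

set_option maxRecDepth 100000 in
theorem seed_22 : okS 49 [6, 5, 6] 48 0 9 1 22 = true := by decide +kernel

set_option maxRecDepth 100000 in
theorem seed_24 : okS 48 [13, 13, 8] 60 0 12 3 24 = true := by decide +kernel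

set_option maxRecDepth 100000 in
theorem seed_26 : okS 48 [11, 7, 10] 48 0 13 2 26 = true := by decide +kernel

set_option maxRecDepth 100000 in
theorem seed_28 : okS 48 [5, 8, 7] 60 0 11 1 28 = true := by decide +kernel

set_option maxRecDepth 100000 in
theorem seed_30 : okS 48 [14, 22, 5] 54 0 10 1 30 = true := by decide +kernel

set_option maxRecDepth 100000 in
theorem seed_32 : okS 50 [6, 10, 14] 56 0 12 2 32 = true := by decide +kernel

set_option maxRecDepth 100000 in
theorem seed_36 : okS 60 [7, 10, 12] 62 0 94 5 36 = true := by decide +kernel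
/-- the least periods -/
theorem all_periods (p : ℕ) (hp : p = 6 ∨ p = 10 ∨ (14 ≤ p ∧ Even p)) :
    ∃ z, (∀ N q, Fill z N [] q) ∧ Function.minimalPeriod step z = p := by
  by_cases hs : p < 48 ∧ p ≠ 34 ∧ p ≠ 38 ∧ p ≠ 40 ∧ p ≠ 42 ∧ p ≠ 44 ∧ p ≠ 46
  · have h : p = 6 ∨ p = 10 ∨ p = 14 ∨ p = 16 ∨ p = 18 ∨ p = 20 ∨ p = 22 ∨ p = 24 ∨ p = 26 ∨ p = 28 ∨ p = 30 ∨ p = 32 ∨ p = 36 := by
      rcases hp with h | h | ⟨h, e⟩
      · omega
      · omega
      · rw [Nat.even_iff] at e
        omega
    rcases h with rfl | rfl | rfl | rfl | rfl | rfl | rfl | rfl | rfl | rfl | rfl | rfl | rfl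
    · exact fill_seed seed_6
    · exact fill_seed seed_10
    · exact fill_seed seed_14
    · exact fill_seed seed_16
    · exact fill_seed seed_18
    · exact fill_seed seed_20
    · exact fill_seed seed_22
    · exact fill_seed seed_24
    · exact fill_seed seed_26
    · exact fill_seed seed_28
    · exact fill_seed seed_30
    · exact fill_seed seed_32
    · exact fill_seed seed_36
  · have he : p % 2 = 0 := by
      rcases hp with h | h | ⟨h, e⟩
      · omega
      · omega
      · exact Nat.even_iff.1 e
    have hf : ∀ (d : Data) (s : ℕ), ok d = true → (GG d).length = s → s ≤ p → p % 12 = s % 12 →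
        ∃ z, (∀ N q, Fill z N [] q) ∧ Function.minimalPeriod step z = p := by
      intro d s h1 h2 h3 h4
      obtain ⟨t, ht⟩ : ∃ t, p = s + 12 * t := ⟨(p - s) / 12, by omega⟩
      obtain ⟨f1, f2⟩ := fill_data h1 t
      exact ⟨_, f1, by rw [f2, h2, ht]⟩
    have hr : p % 12 = 0 ∨ p % 12 = 2 ∨ p % 12 = 4 ∨ p % 12 = 6 ∨ p % 12 = 8 ∨ p % 12 = 10 := by omega
    rcases hr with hr | hr | hr | hr | hr | hr
    · exact hf r0 48 ok_r0 len_r0 (by omega) (by omega)
    · exact hf r2 38 ok_r2 len_r2 (by omega) (by omega)
    · exact hf r4 40 ok_r4 len_r4 (by omega) (by omega)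
    · exact hf r6 42 ok_r6 len_r6 (by omega) (by omega)
    · exact hf r8 44 ok_r8 len_r8 (by omega) (by omega)
    · exact hf r10 34 ok_r10 len_r10 (by omega) (by omega)

/-- if a computation becomes periodic with least period at least three, no word on it is short -/
theorem long_words {x : List Bool} {k : ℕ} (h : 3 ≤ Function.minimalPeriod step (step^[k] x)) (j : ℕ) :
    3 ≤ (step^[j] x).length := by
  by_contra hcon
  obtain ⟨y, hy⟩ : ∃ y, y = step^[j] x := ⟨_, rfl⟩
  rw [← hy] at hcon
  have h2 : step^[2] (step^[20] y) = step^[20] y := by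
    rcases y with _ | ⟨a, _ | ⟨b, _ | ⟨c, y⟩⟩⟩
    · decide
    · clear hy hcon
      revert a
      decide
    · clear hy hcon
      revert a b
      decide
    · simp at hcon
  obtain ⟨p, hp⟩ : ∃ p, p = Function.minimalPeriod step (step^[k] x) := ⟨_, rfl⟩
  rw [← hp] at h
  have h3 : step^[p] (step^[k] x) = step^[k] x := by
    rw [hp]
    exact Function.iterate_minimalPeriod
  have h4 := iter_fix h3 (j + 20)
  have h5 : step^[2] (step^[k] x) = step^[k] x := by
    have e1 : (j + 20) * p + k = ((j + 20) * p + k - (20 + j)) + (20 + j) := by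
      have : j + 20 ≤ (j + 20) * p := Nat.le_mul_of_pos_right _ (by omega)
      omega
    have e2 : step^[k] x = step^[(j + 20) * p + k - (20 + j)] (step^[20] y) := by
      rw [← h4, ← Function.iterate_add_apply, e1, Function.iterate_add_apply, Function.iterate_add_apply, ← hy]
      congr 2
    rw [e2, ← Function.iterate_add_apply, add_comm 2, Function.iterate_add_apply, h2]
  have h6 : Function.IsPeriodicPt step 2 (step^[k] x) := h5
  have h7 := h6.minimalPeriod_le (by norm_num)
  omega

/-- every context admits every such period -/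
theorem main (u v : List Bool) (L p : ℕ) (hp : p = 6 ∨ p = 10 ∨ (14 ≤ p ∧ Even p)) :
    ∃ w : List Bool, L ≤ w.length ∧ (∀ j, 3 ≤ (step^[j] (u ++ w ++ v)).length) ∧
      ∃ k, Function.minimalPeriod step (step^[k] (u ++ w ++ v)) = p := by
  obtain ⟨z, h1, h2⟩ := all_periods p hp
  obtain ⟨w, h3, k, h4⟩ := context h1 u v L
  have h5 : Function.minimalPeriod step (step^[k] (u ++ w ++ v)) = p := by rw [h4, h2]
  exact ⟨w, h3, long_words (k := k) (by rw [h5]; omega), k, h5⟩

end Pool.Agent.PT33
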